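import Pool.Agent.Y392.SD.Fin

set_option autoImplicit false

/-!
# Dominating circuits in circuit double covers of graphs of arbitrary degrees

The starting result `DominatingCircuits` treats dominating circuits of cubic graphs. Here the
degrees are arbitrary, whole families of circuits on the vertices of the dominating circuit are
prescribed, and instead of a dominating circuit (no edge avoids its vertices) it is enough that all
circuits avoiding its vertices have at most three edges.
-/

open Finset

namespace Pool.Agent.Results.MP_5e3363_co.AllDegrees

open Pool.Agent.Helper347.Sab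
open Pool.Agent.Y392.SD (OnCircuit)

/-- Let `G` be a finite loopless multigraph (parallel edges are allowed, the degrees are arbitrary).
(1) If `G` has no vertex of degree one (for example if `G` is cubic) and `C` is a dominating circuit
of `G` then `C` belongs to a circuit double cover of `G`; more generally, every family of pairwise
edge-disjoint circuits of `G` whose vertices lie on `C` is contained in a circuit double cover.
(2) The same holds, if every edge of `G` lies on a circuit, for each circuit `D` such that the
circuits of `G` without vertices on `D` have at most three edges. -/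
theorem result {V E : Type} [Fintype V] [DecidableEq V] [Fintype E] [DecidableEq E]
    (G : MGraph V E) :
    ((∀ v, dg G univ v ≠ 1) → ∀ C : Finset E, IsCircuit G C →
      (∀ e, ∃ v ∈ G.ends e, dg G C v = 2) →
      (∃ F : Multiset (Finset E), IsCDC G F ∧ C ∈ F) ∧
      ∀ T : Multiset (Finset E), OnCircuit G C T →
        ∃ F : Multiset (Finset E), IsCDC G F ∧ T ≤ F) ∧
    ((∀ e, ∃ X, IsCircuit G X ∧ e ∈ X) → ∀ D : Finset E, IsCircuit G D →
      (∀ Y, IsCircuit G Y → (∀ e ∈ Y, ∀ v ∈ G.ends e, dg G D v = 0) → Y.card ≤ 3) →
      ∀ T : Multiset (Finset E), OnCircuit G D T →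
        ∃ F : Multiset (Finset E), IsCDC G F ∧ T ≤ F) := by
  refine ⟨fun h1 C hC hdom => ?_, fun hb D hD h3 T hT => ?_⟩
  · have key : ∀ T : Multiset (Finset E), OnCircuit G C T →
        ∃ F : Multiset (Finset E), IsCDC G F ∧ T ≤ F := fun T hT =>
      Pool.Agent.Y392.SD.family_short G C hC (Pool.Agent.Y392.SD.even_of_dom G C hC hdom h1)
        (Pool.Agent.Y392.SD.short_of_dom G C hdom) T hT
    refine ⟨?_, key⟩
    obtain ⟨F, hF, hle⟩ := key {C}
      (Pool.Agent.Y392.SD.onCircuit_single G C C hC fun v h => h)
    exact ⟨F, hF, Pool.Agent.Y392.SD.mem_of_single hle⟩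
  · refine Pool.Agent.Y392.SD.family_short G D hD (fun e => ?_) h3 T hT
    obtain ⟨X, hX, he⟩ := hb e
    exact ⟨X, Pool.Agent.Helper998.Near.ev_circuit G X hX, he⟩

end Pool.Agent.Results.MP_5e3363_co.AllDegrees
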